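import Pool.Agent.Helper76.RD.Goals3
import Pool.Agent.Helper50.RS.RS

/-!
# Project RD (MP_fc6b1e_nt): the theorem for families `E_RSQ`
-/

namespace Pool.Agent.Helper74.RD

open NumberField Polynomial Module IsDedekindDomain Pool.Agent.Helper51.SigLeo
open Pool.Agent.Helper51.RP Pool.Agent.Helper42.RD Pool.Agent.Helper76.RD

theorem tset_eq {K Ω k : Type} [Field K] [Field Ω] [NormedField k] (ιinf : Ω →+* ℂ)
    (ιp : Ω →+* k) (S : Set (K →+* ℂ)) :
    TSet ιinf ιp S = Pool.Agent.Helper50.RS.tset ιinf ιp S := by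
  ext τ
  constructor
  · rintro ⟨σ, h1, h2⟩
    exact ⟨σ, h2, h1⟩
  · rintro ⟨σ, h1, h2⟩
    exact ⟨σ, h2, h1⟩

/-- Frobenius, `r` times. -/
theorem phi_pow (hF : E_FRB) {p : ℕ} [Fact p.Prime] {k : Type} [NormedField k]
    [NormedAlgebra ℚ_[p] k] {m : ℕ} {ζ : k} {Φ : ℤ_[p][X]} {P : (ZMod p)[X]}
    (h : PhiData p m ζ Φ P) (r : ℕ) : PhiData p m (ζ ^ p ^ r) Φ P := by
  induction r with
  | zero => rw [pow_zero, pow_one]; exact h
  | succ r ih =>
    have h1 := hF p k m (ζ ^ p ^ r) Φ P ih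
    rw [← pow_mul, ← pow_succ] at h1
    exact h1

/-- If `M` is not contained in `K(ξ)` then a power of the generator fixes `ξ`. -/
theorem exists_fix {K Ω : Type} [Field K] [Field Ω] [Algebra K Ω] (M : IntermediateField K Ω)
    [FiniteDimensional K M] [IsGalois K M] (δ : M ≃ₐ[K] M)
    (hδ : ∀ g : M ≃ₐ[K] M, g ∈ Subgroup.zpowers δ) (m : ℕ) (hm : orderOf δ = m) (hm0 : 0 < m)
    (ξ : M) (hξ : ¬ M ≤ IntermediateField.adjoin K {(ξ : Ω)}) :
    ∃ e, 0 < e ∧ e < m ∧ (δ ^ e) ξ = ξ := by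
  by_contra hcon
  push Not at hcon
  apply hξ
  have h1 : (IntermediateField.adjoin K {ξ}).fixingSubgroup = ⊥ := by
    rw [eq_bot_iff]
    intro g hg
    rw [IntermediateField.mem_fixingSubgroup_iff] at hg
    have h2 : g ξ = ξ := hg ξ (IntermediateField.subset_adjoin K {ξ} rfl)
    have h7 : IsOfFinOrder δ := by
      rw [← orderOf_pos_iff, hm]; exact hm0
    have h6 := hδ g
    rw [← mem_powers_iff_mem_zpowers] at h6
    obtain ⟨i, hi⟩ := h6
    have hi' : δ ^ (i % m) = g := by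
      rw [← hm, pow_mod_orderOf]; exact hi
    rw [Subgroup.mem_bot]
    rcases Nat.eq_zero_or_pos (i % m) with h | h
    · rw [← hi', h, pow_zero]
    · exact absurd (by rw [hi']; exact h2) (hcon (i % m) h (Nat.mod_lt _ hm0))
  have h2 : IntermediateField.adjoin K {ξ} = ⊤ := by
    rw [← IsGalois.fixedField_fixingSubgroup (IntermediateField.adjoin K {ξ}), h1]
    exact IntermediateField.fixedField_bot
  intro x hx
  have h3 : (⟨x, hx⟩ : M) ∈ IntermediateField.adjoin K {ξ} := by rw [h2]; trivial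
  have h4 : M.val (⟨x, hx⟩ : M) ∈ (IntermediateField.adjoin K {ξ}).map M.val :=
    ⟨_, h3, rfl⟩
  rw [IntermediateField.adjoin_map, Set.image_singleton] at h4
  exact h4

/-- The theorem for families. -/
theorem e_rsq (h1 : S_PHI) (h2 : D_COQ) (h3 : E_TOR) (h4 : E_FRB) (h5 : E_INM) : E_RSQ := by
  classical
  intro p hpf K _ _ ιinf ιp L M _ _ hcop hnot ι hι S χ₀ c hCM hOrd hinj hc
  have hchar : CharZero (AlgebraicClosure K) :=
    charZero_of_injective_algebraMap (algebraMap K (AlgebraicClosure K)).injective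
  obtain ⟨i₀⟩ := hι
  have htc : IsTotallyComplex K := Pool.Agent.Helper50.RS.totallyComplex_of_cm (hCM i₀)
  have hnf : NumberField M := NumberField.of_module_finite K M
  have hne : Nonempty (AlgebraicClosure ℚ →+* ℂ_[p]) :=
    Pool.Agent.Helper50.RS.nonempty_hom ℚ ℂ_[p]
  have hcl : ∀ i, PlaceClosed (TSet ιinf ιp (S i)) := fun i => by
    rw [tset_eq]
    exact Pool.Agent.Helper50.RS.tset_closed ιinf ιp (S i) (hOrd i)
  have hcard : ∀ i, finrank ℚ K = 2 * (TSet ιinf ιp (S i)).ncard := fun i => by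
    rw [tset_eq, Pool.Agent.Helper50.RS.tset_ncard,
      Pool.Agent.Helper50.RS.two_mul_ncard_cm (hCM i)]
  have hinj' : ∀ i, Function.Injective ((Units.coeHom ℂ_[p]).comp (χ₀ i)) := by
    intro i x y hxy
    apply hinj i
    exact Units.ext hxy
  have hcyc : IsCyclic (M ≃ₐ[K] M) := isCyclic_of_injective_ringHom _ (hinj' i₀)
  obtain ⟨δ, hδ⟩ := IsCyclic.exists_generator (α := (M ≃ₐ[K] M))
  have horder : orderOf δ = finrank K M := by
    rw [orderOf_eq_card_of_forall_mem_zpowers hδ, IsGalois.card_aut_eq_finrank]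
  have hm0 : 0 < finrank K M := finrank_pos
  have hprim : ∀ i, IsPrimitiveRoot ((χ₀ i δ : ℂ_[p]ˣ) : ℂ_[p]) (finrank K M) := by
    intro i
    have h4 : orderOf ((χ₀ i δ : ℂ_[p]ˣ) : ℂ_[p]) = finrank K M := by
      rw [← horder]
      exact orderOf_injective ((Units.coeHom ℂ_[p]).comp (χ₀ i)) (hinj' i) δ
    rw [← h4]
    exact IsPrimitiveRoot.orderOf _
  -- the degree is larger than 1
  have hlt : 1 < finrank K M := by
    by_contra hcon
    have hone : finrank K M = 1 := by omega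
    have hbot : M = ⊥ := IntermediateField.finrank_eq_one_iff.mp hone
    obtain ⟨ξ, hξ⟩ : ∃ ξ : AlgebraicClosure K, IsPrimitiveRoot ξ p := by
      have hnz : NeZero (p : AlgebraicClosure K) :=
        ⟨by exact_mod_cast hpf.out.ne_zero⟩
      exact HasEnoughRootsOfUnity.exists_primitiveRoot (AlgebraicClosure K) p
    apply hnot ξ hξ
    rw [hbot]
    exact bot_le
  -- the representatives of the classes
  set r : Fin p → ι := fun t => if h : ∃ i, c i = t then h.choose else i₀ with hr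
  have hrc : ∀ i, c (r (c i)) = c i := by
    intro i
    have h : ∃ i', c i' = c i := ⟨i, rfl⟩
    rw [hr]
    simp only [dif_pos h]
    exact h.choose_spec
  choose Φ P hPhi using fun t : Fin p =>
    h1 p ℂ_[p] (finrank K M) ((χ₀ (r t) δ : ℂ_[p]ˣ) : ℂ_[p]) hcop hlt (hprim (r t))
  have hδm : δ ^ finrank K M = 1 := by rw [← horder]; exact pow_orderOf_eq_one δ
  have hTor : ∀ t, TorOK (P t) δ := by
    intro t
    refine h3 p ℂ_[p] (finrank K M) _ (Φ t) (P t) (hPhi t) K M δ hδm ?_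
    intro ξ hξ
    refine exists_fix M δ hδ (finrank K M) horder hm0 ξ (hnot _ ?_)
    exact hξ.map_of_injective (f := M.val) M.val.injective
  obtain ⟨R, al, hD, hSel⟩ := h2 p ℂ_[p] hne L K M (finrank K M) δ horder rfl p P
    (fun t => TSet ιinf ιp (S (r t))) le_rfl
    (fun t => ⟨⟨_, Φ t, hPhi t⟩, hTor t, hcl (r t), hcard (r t)⟩)
  refine (h5 p K ιinf ιp L M hcop hnot R al hD).mono ?_
  rintro N ⟨hN1, hN2, hN3⟩
  refine ⟨hN1, hN2, fun i => ?_⟩
  obtain ⟨hS, n, hn⟩ := hc i (r (c i)) (hrc i).symm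
  refine hN3 (S i) (hcl i) (χ₀ i) (hinj i) δ (Φ (c i)) (P (c i)) horder ?_ ?_
  · rw [hn δ, Units.val_pow_eq_pow_val]
    exact phi_pow h4 (hPhi (c i)) n
  · intro x hx
    refine hSel (c i) x ?_
    rwa [hS] at hx

end Pool.Agent.Helper74.RD
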